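import Mathlib

/-!
# MP_cf426b_al : commuting graph diameter versus semigroup rank

For every `D` there is a finite semigroup generated by two elements whose commuting graph is
connected and has diameter at least `D`.

The semigroup is the semigroup of self maps of `{0, …, 2 * 2 ^ k}` generated by
`x ↦ ⌊x / 2⌋` and `x ↦ 2 ^ k + ⌈x / 2⌉`.
-/

namespace Pool.Agent.Results.MP_cf426b_al.RankTwoDiameter

/-- The commuting graph of a semigroup `S`: the vertices are the non-central elements of `S`, and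
two distinct vertices are adjacent iff they commute. -/
def commutingGraph (S : Type) [Semigroup S] :
    SimpleGraph {x : S // ¬ ∀ s : S, x * s = s * x} where
  Adj x y := x ≠ y ∧ x.1 * y.1 = y.1 * x.1
  symm := ⟨fun _ _ h => ⟨h.1.symm, h.2.symm⟩⟩
  loopless := ⟨fun _ h => h.1 rfl⟩

section

variable (k : ℕ)

/-- The underlying chain `{0, …, 2 * 2 ^ k}`. -/
abbrev X := Fin (2 * 2 ^ k + 1)

/-- `x ↦ ⌊x / 2⌋` -/
def fL : Function.End (X k) := fun x => ⟨x.1 / 2, by have := x.2; omega⟩

/-- `x ↦ 2 ^ k + ⌈x / 2⌉` -/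
def fR : Function.End (X k) := fun x => ⟨2 ^ k + (x.1 + 1) / 2, by have := x.2; omega⟩

/-- The semigroup generated by `fL` and `fR`. -/
def T : Subsemigroup (Function.End (X k)) := Subsemigroup.closure {fL k, fR k}

lemma fL_mem : fL k ∈ T k := Subsemigroup.subset_closure (by simp)

lemma fR_mem : fR k ∈ T k := Subsemigroup.subset_closure (by simp)

/-- Monotone and contracting by (about) one half. -/
structure Good (s : Function.End (X k)) : Prop where
  mono : ∀ x y : X k, x.1 ≤ y.1 → (s x).1 ≤ (s y).1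
  contr : ∀ x y : X k, x.1 ≤ y.1 → (s y).1 ≤ (s x).1 + (y.1 - x.1 + 1) / 2

variable {k}

lemma good_of_mem {s : Function.End (X k)} (hs : s ∈ T k) : Good k s := by
  induction hs using Subsemigroup.closure_induction with
  | mem s hs =>
    rcases hs with rfl | hs
    · refine ⟨fun x y h => ?_, fun x y h => ?_⟩ <;> simp only [fL] <;> omega
    · rw [Set.mem_singleton_iff] at hs
      subst hs
      refine ⟨fun x y h => ?_, fun x y h => ?_⟩ <;> simp only [fR] <;> omega
  | mul s t _ _ h1 h2 =>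
    refine ⟨fun x y h => h1.mono _ _ (h2.mono _ _ h), fun x y h => ?_⟩
    have e1 := h1.contr _ _ (h2.mono _ _ h)
    have e2 := h2.contr _ _ h
    have e3 : ∀ z, (s * t) z = s (t z) := fun z => rfl
    rw [e3, e3]
    omega

/-- A good map has a fixed point. -/
lemma Good.exists_fix {s : Function.End (X k)} (hs : Good k s) : ∃ p, s p = p := by
  classical
  have hex : ∃ n : ℕ, ∃ h : n < 2 * 2 ^ k + 1, (s ⟨n, h⟩).1 ≤ n :=
    ⟨2 * 2 ^ k, by omega, by have := (s ⟨2 * 2 ^ k, by omega⟩).2; omega⟩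
  obtain ⟨n, ⟨h, hp⟩, hmin⟩ : ∃ n : ℕ, (∃ h : n < 2 * 2 ^ k + 1, (s ⟨n, h⟩).1 ≤ n) ∧
      ∀ m < n, ¬ ∃ h : m < 2 * 2 ^ k + 1, (s ⟨m, h⟩).1 ≤ m :=
    ⟨Nat.find hex, Nat.find_spec hex, fun m hm => Nat.find_min hex hm⟩
  refine ⟨⟨n, h⟩, Fin.ext ?_⟩
  rcases Nat.eq_zero_or_pos n with h0 | h0
  · simp only
    omega
  · have hm := hmin (n - 1) (by omega)
    push Not at hm
    have h1 := hm (by omega)
    have h2 := hs.mono ⟨n - 1, by omega⟩ ⟨n, h⟩ (by simp)
    simp only
    omega

/-- Two fixed points of a good map are at distance at most one. -/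
lemma Good.fix_close {s : Function.End (X k)} (hs : Good k s) {a b : X k}
    (ha : s a = a) (hb : s b = b) : a.1 ≤ b.1 + 1 := by
  by_contra hcon
  have h := hs.contr b a (by omega)
  rw [ha, hb] at h
  omega

/-- Commuting good maps have a common fixed point. -/
lemma Good.common_fix {s t : Function.End (X k)} (hs : Good k s) (ht : Good k t)
    (hst : s * t = t * s) : ∃ p, s p = p ∧ t p = p := by
  obtain ⟨p, hp⟩ := hs.exists_fix
  have hc : ∀ x, s (t x) = t (s x) := fun x => congrFun hst x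
  -- `t` preserves the fixed points of `s`
  have hfix : ∀ x, s x = x → s (t x) = t x := fun x hx => by rw [hc, hx]
  by_cases h1 : t p = p
  · exact ⟨p, hp, h1⟩
  · have hq := hfix p hp
    have hr := hfix _ hq
    refine ⟨t p, hq, ?_⟩
    have h1' : (t p).1 ≠ p.1 := fun h => h1 (Fin.ext h)
    have a1 := hs.fix_close hq hp
    have a2 := hs.fix_close hp hq
    have a3 := hs.fix_close hr hp
    have a4 := hs.fix_close hp hr
    have a5 := hs.fix_close hr hq
    have a6 := hs.fix_close hq hr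
    apply Fin.ext
    rcases Nat.lt_or_ge p.1 (t p).1 with h2 | h2
    · have h3 := ht.mono p (t p) h2.le
      omega
    · have h3 := ht.mono (t p) p h2
      omega

/-- constant maps -/
def cst (x : X k) : Function.End (X k) := fun _ => x

lemma cst_mem_step {s : Function.End (X k)} (hs : s ∈ T k) {x : X k} (hx : cst x ∈ T k) :
    cst (s x) ∈ T k := by
  have h : cst (s x) = s * cst x := rfl
  rw [h]
  exact mul_mem hs hx

lemma fL_pow (n : ℕ) : ∃ w ∈ T k, ∀ x : X k, (w x).1 = x.1 / 2 ^ (n + 1) := by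
  induction n with
  | zero => exact ⟨fL k, fL_mem k, fun x => by simp [fL]⟩
  | succ n ih =>
    obtain ⟨w, hw, h⟩ := ih
    refine ⟨fL k * w, mul_mem (fL_mem k) hw, fun x => ?_⟩
    have e : ((fL k * w) x).1 = (w x).1 / 2 := rfl
    rw [e, h, Nat.div_div_eq_div_mul, ← pow_succ]

lemma cst_zero_mem : cst (⟨0, by omega⟩ : X k) ∈ T k := by
  obtain ⟨w, hw, h⟩ := fL_pow (k := k) (k + 1)
  have e : w = cst (⟨0, by omega⟩ : X k) := by
    funext x
    apply Fin.ext
    rw [h]
    have h2 : x.1 < 2 ^ (k + 1 + 1) := by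
      have h3 := x.2
      have h4 : 1 ≤ 2 ^ k := Nat.one_le_two_pow
      rw [pow_succ, pow_succ]
      omega
    exact Nat.div_eq_of_lt h2
  rw [← e]
  exact hw

lemma cst_dyadic (n : ℕ) : ∀ l, n + l = k + 1 → ∀ r < 2 ^ n,
    ∀ h : r * 2 ^ l < 2 * 2 ^ k + 1, cst (⟨r * 2 ^ l, h⟩ : X k) ∈ T k := by
  induction n with
  | zero =>
    intro l hl r hr h
    have hr0 : r = 0 := by simpa using hr
    subst hr0
    have := cst_zero_mem (k := k)
    simpa using this
  | succ n ih =>
    intro l hl r hr h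
    have e1 : 2 ^ (l + 1) = 2 * 2 ^ l := by rw [pow_succ]; ring
    have e2 : 2 ^ k = 2 ^ n * 2 ^ l := by rw [← pow_add]; congr 1; omega
    have hlp : 0 < 2 ^ l := by positivity
    rcases Nat.lt_or_ge r (2 ^ n) with h1 | h1
    · have h2 : r * 2 ^ (l + 1) < 2 * 2 ^ k + 1 := by
        rw [e1, e2]
        have := Nat.mul_lt_mul_of_pos_right h1 hlp
        nlinarith
      have h3 := cst_mem_step (fL_mem k) (ih (l + 1) (by omega) r h1 h2)
      have e : fL k ⟨r * 2 ^ (l + 1), h2⟩ = (⟨r * 2 ^ l, h⟩ : X k) := by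
        apply Fin.ext
        change r * 2 ^ (l + 1) / 2 = r * 2 ^ l
        rw [e1]
        have : r * (2 * 2 ^ l) = 2 * (r * 2 ^ l) := by ring
        omega
      rw [e] at h3
      exact h3
    · obtain ⟨r', rfl⟩ := Nat.exists_eq_add_of_le h1
      have hr' : r' < 2 ^ n := by rw [pow_succ] at hr; omega
      have h2 : r' * 2 ^ (l + 1) < 2 * 2 ^ k + 1 := by
        rw [e1, e2]
        have := Nat.mul_lt_mul_of_pos_right hr' hlp
        nlinarith
      have h3 := cst_mem_step (fR_mem k) (ih (l + 1) (by omega) r' hr' h2)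
      have e : fR k ⟨r' * 2 ^ (l + 1), h2⟩ = (⟨(2 ^ n + r') * 2 ^ l, h⟩ : X k) := by
        apply Fin.ext
        change 2 ^ k + (r' * 2 ^ (l + 1) + 1) / 2 = (2 ^ n + r') * 2 ^ l
        rw [e1, add_mul, ← e2]
        have : r' * (2 * 2 ^ l) = 2 * (r' * 2 ^ l) := by ring
        omega
      rw [e] at h3
      exact h3

/-- All constant maps belong to the semigroup. -/
lemma cst_mem (x : X k) : cst x ∈ T k := by
  have key : ∀ r < 2 ^ (k + 1), ∀ h : r < 2 * 2 ^ k + 1, cst (⟨r, h⟩ : X k) ∈ T k := by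
    intro r hr h
    have := cst_dyadic (k := k) (k + 1) 0 rfl r hr (by simpa using h)
    simpa using this
  have hp : 2 ^ (k + 1) = 2 * 2 ^ k := by rw [pow_succ]; ring
  have h1 : 1 ≤ 2 ^ k := Nat.one_le_two_pow
  rcases Nat.lt_or_ge x.1 (2 ^ (k + 1)) with h | h
  · exact key x.1 h x.2
  · have hx : x.1 = 2 * 2 ^ k := by have := x.2; omega
    have h2 := cst_mem_step (fR_mem k) (key (2 * 2 ^ k - 1) (by omega) (by omega))
    have e : fR k ⟨2 * 2 ^ k - 1, by omega⟩ = x := by
      apply Fin.ext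
      change 2 ^ k + (2 * 2 ^ k - 1 + 1) / 2 = x.1
      omega
    rw [e] at h2
    exact h2

/-- The permutation of the pairs `{i, i + 1}`. -/
def sg (i : Fin (2 * 2 ^ k)) : Fin (2 * 2 ^ k) :=
  if i.1 % 2 = 1 then ⟨i.1 / 2, by have := i.2; omega⟩ else ⟨2 ^ k + i.1 / 2, by have := i.2; omega⟩

lemma sg_inj : Function.Injective (sg (k := k)) := by
  intro i j h
  apply Fin.ext
  have hi := i.2
  have hj := j.2
  unfold sg at h
  split_ifs at h <;> simp only [Fin.mk.injEq] at h <;> omega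

lemma pair_word (n : ℕ) : ∀ i : Fin (2 * 2 ^ k), ∃ w ∈ T k,
    ∀ x : X k, (x.1 = i.1 → (w x).1 = (sg^[n + 1] i).1) ∧
      (x.1 = i.1 + 1 → (w x).1 = (sg^[n + 1] i).1 + 1) := by
  have base : ∀ i : Fin (2 * 2 ^ k), ∃ w ∈ T k,
    ∀ x : X k, (x.1 = i.1 → (w x).1 = (sg i).1) ∧
      (x.1 = i.1 + 1 → (w x).1 = (sg i).1 + 1) := by
    intro i
    by_cases hi : i.1 % 2 = 1
    · refine ⟨fL k, fL_mem k, fun x => ?_⟩
      simp only [sg, if_pos hi, fL]
      constructor <;> intro hx <;> omega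
    · refine ⟨fR k, fR_mem k, fun x => ?_⟩
      simp only [sg, if_neg hi, fR]
      constructor <;> intro hx <;> omega
  induction n with
  | zero => simpa using base
  | succ n ih =>
    intro i
    obtain ⟨w, hw, h⟩ := ih (sg i)
    obtain ⟨v, hv, h'⟩ := base i
    refine ⟨w * v, mul_mem hw hv, fun x => ⟨fun hx => ?_, fun hx => ?_⟩⟩
    · rw [Function.iterate_succ_apply]
      exact (h (v x)).1 ((h' x).1 hx)
    · rw [Function.iterate_succ_apply]
      exact (h (v x)).2 ((h' x).2 hx)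

/-- Every pair `{i, i + 1}` is fixed pointwise by an element of the semigroup. -/
lemma exists_fix_pair (i : Fin (2 * 2 ^ k)) : ∃ w ∈ T k,
    ∀ x : X k, (x.1 = i.1 → w x = x) ∧ (x.1 = i.1 + 1 → w x = x) := by
  have hper := sg_inj.mem_periodicPts i
  obtain ⟨n, hn, hp⟩ := hper
  obtain ⟨w, hw, h⟩ := pair_word (n - 1) i
  have e : n - 1 + 1 = n := by omega
  rw [e] at h
  have hp' : sg^[n] i = i := hp
  refine ⟨w, hw, fun x => ⟨fun hx => Fin.ext ?_, fun hx => Fin.ext ?_⟩⟩
  · rw [(h x).1 hx, hp', hx]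
  · rw [(h x).2 hx, hp', hx]

/-- No element of the semigroup is central. -/
lemma not_central (s : T k) : ¬ ∀ t : T k, s * t = t * s := by
  intro h
  have hs := good_of_mem s.2
  have h1 : ∀ x : X k, s.1 x = x := by
    intro x
    have := congrArg Subtype.val (h ⟨cst x, cst_mem x⟩)
    exact congrFun this x
  have h2 := hs.fix_close (h1 ⟨2, by have : 1 ≤ 2 ^ k := Nat.one_le_two_pow; omega⟩)
    (h1 ⟨0, by omega⟩)
  simp at h2

/-- A vertex of the commuting graph. -/
def vtx (s : T k) : {x : T k // ¬ ∀ s : T k, x * s = s * x} := ⟨s, not_central s⟩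

/-- The constants as vertices. -/
def cv (x : X k) : {x : T k // ¬ ∀ s : T k, x * s = s * x} := vtx ⟨cst x, cst_mem x⟩

lemma commute_cst {s : T k} {x : X k} (h : s.1 x = x) :
    s * ⟨cst x, cst_mem x⟩ = ⟨cst x, cst_mem x⟩ * s := by
  apply Subtype.ext
  funext y
  change s.1 x = x
  exact h

lemma reach_cst {s : T k} {x : X k} (h : s.1 x = x) :
    (commutingGraph (T k)).Reachable (vtx s) (cv x) := by
  by_cases he : vtx s = cv x
  · rw [he]
  · exact SimpleGraph.Adj.reachable ⟨he, commute_cst h⟩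

lemma reach_succ (n : ℕ) (h : n + 1 < 2 * 2 ^ k + 1) :
    (commutingGraph (T k)).Reachable (cv ⟨n, by omega⟩) (cv ⟨n + 1, h⟩) := by
  obtain ⟨w, hw, hfix⟩ := exists_fix_pair (⟨n, by omega⟩ : Fin (2 * 2 ^ k))
  have h1 := reach_cst (s := ⟨w, hw⟩) ((hfix ⟨n, by omega⟩).1 rfl)
  have h2 := reach_cst (s := ⟨w, hw⟩) ((hfix ⟨n + 1, h⟩).2 rfl)
  exact h1.symm.trans h2

lemma reach_zero (n : ℕ) : ∀ h : n < 2 * 2 ^ k + 1,
    (commutingGraph (T k)).Reachable (cv ⟨0, by omega⟩) (cv ⟨n, h⟩) := by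
  induction n with
  | zero => intro h; exact SimpleGraph.Reachable.refl _
  | succ n ih => intro h; exact (ih (by omega)).trans (reach_succ n h)

lemma connected : (commutingGraph (T k)).Connected := by
  have hall : ∀ v, (commutingGraph (T k)).Reachable (cv ⟨0, by omega⟩) v := by
    rintro ⟨s, hs⟩
    obtain ⟨p, hp⟩ := (good_of_mem s.2).exists_fix
    exact (reach_zero p.1 p.2).trans (reach_cst hp).symm
  have : Nonempty {x : T k // ¬ ∀ s : T k, x * s = s * x} := ⟨cv ⟨0, by omega⟩⟩
  exact ⟨fun u v => (hall u).symm.trans (hall v)⟩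

lemma walk_bound {u v : {x : T k // ¬ ∀ s : T k, x * s = s * x}}
    (p : (commutingGraph (T k)).Walk u v) :
    ∀ a b : X k, u.1.1 a = a → v.1.1 b = b → a.1 ≤ b.1 + (p.length + 1) := by
  induction p with
  | nil =>
    intro a b ha hb
    have := (good_of_mem (Subtype.property _)).fix_close ha hb
    simpa using this
  | @cons u w v h p ih =>
    intro a b ha hb
    have hcomm : u.1.1 * w.1.1 = w.1.1 * u.1.1 := congrArg Subtype.val h.2
    obtain ⟨c, hc1, hc2⟩ := (good_of_mem u.1.2).common_fix (good_of_mem w.1.2) hcomm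
    have h1 := (good_of_mem u.1.2).fix_close ha hc1
    have h2 := ih c b hc2 hb
    rw [SimpleGraph.Walk.length_cons]
    omega

lemma dist_ge : 2 * 2 ^ k - 1 ≤
    (commutingGraph (T k)).dist (cv ⟨2 * 2 ^ k, by omega⟩) (cv ⟨0, by omega⟩) := by
  obtain ⟨p, hp⟩ := (connected (k := k)).exists_walk_length_eq_dist
    (cv ⟨2 * 2 ^ k, by omega⟩) (cv ⟨0, by omega⟩)
  rw [← hp]
  have := walk_bound p ⟨2 * 2 ^ k, by omega⟩ ⟨0, by omega⟩ rfl rfl
  simp only at this
  omega

end

/-- For every `D` there is a finite semigroup `S` generated by two elements whose commuting graph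
is connected and contains two vertices at distance at least `D`. -/
theorem result : ∀ D : ℕ, ∃ (S : Type) (_ : Semigroup S), Finite S ∧
    (∃ a b : S, Subsemigroup.closure {a, b} = (⊤ : Subsemigroup S)) ∧
    (commutingGraph S).Connected ∧
    ∃ x y, D ≤ (commutingGraph S).dist x y := by
  intro D
  refine ⟨T D, inferInstance, ?_, ⟨⟨fL D, fL_mem D⟩, ⟨fR D, fR_mem D⟩, ?_⟩, connected, _, _,
    le_trans ?_ (dist_ge (k := D))⟩
  · have : Finite (Function.End (X D)) := inferInstanceAs (Finite (X D → X D))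
    exact inferInstance
  · have h := Subsemigroup.closure_closure_coe_preimage (s := ({fL D, fR D} : Set (Function.End (X D))))
    refine Eq.trans ?_ h
    congr 1
    ext x
    simp only [Set.mem_insert_iff, Set.mem_singleton_iff, Set.mem_preimage]
    constructor
    · rintro (rfl | rfl)
      · exact Or.inl rfl
      · exact Or.inr rfl
    · rintro (h | h)
      · exact Or.inl (Subtype.ext h)
      · exact Or.inr (Subtype.ext h)
  · have h1 : D < 2 ^ D := Nat.lt_two_pow_self
    omega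

end Pool.Agent.Results.MP_cf426b_al.RankTwoDiameter
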